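import Pool.Agent.helper92.ISO.SpecG

/-!
# Row `iso:THL` (MP_069684_lc): the lower bound for the value of the game
-/

set_option autoImplicit false

open Filter Topology

namespace Pool.Agent.ISO

open Pool.Agent.PB

theorem THL_bin (hPRM : PRM_stmt) (R κ : ℕ) (K : Finset (Fin R)) (x : ℝ) :
    bin κ K.card x = ∑ T : Finset (Fin R), if Hit κ T K then x ^ T.card * (1 - x) ^ (R - T.card) else 0 := by
  obtain ⟨-, h2⟩ := hPRM R K x
  unfold bin
  calc ∑ r ∈ Finset.Icc 1 κ, (K.card.choose r : ℝ) * x ^ r * (1 - x) ^ (K.card - r)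
      = ∑ r ∈ Finset.Icc 1 κ, ∑ T : Finset (Fin R), if (T ∩ K).card = r then x ^ T.card * (1 - x) ^ (R - T.card) else 0 :=
        Finset.sum_congr rfl fun r _ => (h2 r).symm
    _ = ∑ T : Finset (Fin R), ∑ r ∈ Finset.Icc 1 κ, if (T ∩ K).card = r then x ^ T.card * (1 - x) ^ (R - T.card) else 0 :=
        Finset.sum_comm
    _ = ∑ T : Finset (Fin R), if Hit κ T K then x ^ T.card * (1 - x) ^ (R - T.card) else 0 := by
        refine Finset.sum_congr rfl fun T _ => ?_
        rw [Finset.sum_ite_eq (Finset.Icc 1 κ) (T ∩ K).card]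
        by_cases h : Hit κ T K
        · rw [if_pos h, if_pos (Finset.mem_Icc.2 h)]
        · rw [if_neg h, if_neg fun h' => h (Finset.mem_Icc.1 h')]

theorem THL_one (hPRM : PRM_stmt) {R κ : ℕ} {q : ℝ} {μ : Finset (Fin R) → ℝ} (hv : ValLe κ q μ) {x : ℝ} (h0 : 0 ≤ x) (h1 : x ≤ 1) :
    ∑ K, μ K * bin κ K.card x ≤ q := by
  have e1 : ∑ K, μ K * bin κ K.card x = ∑ T : Finset (Fin R), x ^ T.card * (1 - x) ^ (R - T.card) * ∑ K with Hit κ T K, μ K := by
    calc ∑ K, μ K * bin κ K.card x
        = ∑ K, ∑ T : Finset (Fin R), if Hit κ T K then x ^ T.card * (1 - x) ^ (R - T.card) * μ K else 0 := by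
          refine Finset.sum_congr rfl fun K _ => ?_
          rw [THL_bin hPRM, Finset.mul_sum]
          refine Finset.sum_congr rfl fun T _ => ?_
          split_ifs
          · ring
          · ring
      _ = ∑ T : Finset (Fin R), ∑ K, if Hit κ T K then x ^ T.card * (1 - x) ^ (R - T.card) * μ K else 0 := Finset.sum_comm
      _ = _ := by
          refine Finset.sum_congr rfl fun T _ => ?_
          rw [Finset.mul_sum, Finset.sum_filter]
  rw [e1]
  calc ∑ T : Finset (Fin R), x ^ T.card * (1 - x) ^ (R - T.card) * ∑ K with Hit κ T K, μ K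
      ≤ ∑ T : Finset (Fin R), x ^ T.card * (1 - x) ^ (R - T.card) * q := by
        refine Finset.sum_le_sum fun T _ => mul_le_mul_of_nonneg_left (hv T) ?_
        have : 0 ≤ 1 - x := by linarith
        positivity
    _ = q := by
        rw [← Finset.sum_mul, (hPRM R ∅ x).1, one_mul]

theorem THL_cont (κ t : ℕ) : Continuous fun x : ℝ => bin κ t x := by
  unfold bin
  fun_prop

theorem THL_proof (hPRM : PRM_stmt) (hBET : BET_stmt) : THL_stmt := by
  intro R m κ q δ μ hm hκ hδ hδ1 hs hv
  have hm0 : (0 : ℝ) < m := by exact_mod_cast hm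
  have hm1 : (1 : ℝ) ≤ m := by exact_mod_cast hm
  set a : ℝ := δ / m with ha
  have ha0 : 0 < a := div_pos hδ hm0
  have ha1 : a ≤ 1 := by
    rw [ha, div_le_one hm0]
    linarith
  -- integrability
  have hint : ∀ t : ℕ, IntervalIntegrable (fun x : ℝ => bin κ t x / x) MeasureTheory.volume a 1 := by
    intro t
    apply ContinuousOn.intervalIntegrable
    rw [Set.uIcc_of_le ha1]
    exact (THL_cont κ t).continuousOn.div continuousOn_id fun x hx => (lt_of_lt_of_le ha0 hx.1).ne'
  have h1 : ∑ K, μ K * ∫ x in a..1, bin κ K.card x / x ≤ q * Real.log (m / δ) := by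
    have e1 : ∑ K, μ K * ∫ x in a..1, bin κ K.card x / x = ∫ x in a..1, ∑ K, μ K * (bin κ K.card x / x) := by
      rw [intervalIntegral.integral_finsetSum]
      · exact Finset.sum_congr rfl fun K _ => (intervalIntegral.integral_const_mul _ _).symm
      · intro K _
        exact (hint K.card).const_mul _
    have e2 : ∫ x in a..1, q * x⁻¹ = q * Real.log (m / δ) := by
      rw [intervalIntegral.integral_const_mul, integral_inv_of_pos ha0 one_pos, ha, one_div_div]
    rw [e1, ← e2]
    apply intervalIntegral.integral_mono_on ha1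
    · have h0 := IntervalIntegrable.sum Finset.univ (f := fun (K : Finset (Fin R)) x => μ K * (bin κ K.card x / x))
        fun K _ => (hint K.card).const_mul (μ K)
      have h00 : (∑ K : Finset (Fin R), fun x => μ K * (bin κ K.card x / x)) = fun x => ∑ K, μ K * (bin κ K.card x / x) := by
        funext x
        rw [Finset.sum_apply]
      rw [← h00]
      exact h0
    · apply ContinuousOn.intervalIntegrable
      rw [Set.uIcc_of_le ha1]
      exact continuousOn_const.mul (continuousOn_id.inv₀ fun x hx => (lt_of_lt_of_le ha0 hx.1).ne')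
    · intro x hx
      have hx0 : 0 < x := lt_of_lt_of_le ha0 hx.1
      have h2 := THL_one hPRM hv hx0.le hx.2
      have e3 : ∑ K, μ K * (bin κ K.card x / x) = (∑ K, μ K * bin κ K.card x) * x⁻¹ := by
        rw [Finset.sum_mul]
        refine Finset.sum_congr rfl fun K _ => ?_
        rw [div_eq_mul_inv]
        ring
      rw [e3]
      exact mul_le_mul_of_nonneg_right h2 (inv_nonneg.2 hx0.le)
  -- the left hand side
  have hH0 : ∀ n : ℕ, (0 : ℝ) ≤ (harmonic n : ℝ) := by
    intro n
    have : (0 : ℚ) ≤ harmonic n := by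
      unfold harmonic
      positivity
    exact_mod_cast this
  have h2 : ∀ K, μ K * ((harmonic (min κ K.card) : ℝ) - δ) ≤ μ K * ∫ x in a..1, bin κ K.card x / x := by
    intro K
    by_cases hK : μ K = 0
    · rw [hK, zero_mul, zero_mul]
    · obtain ⟨k1, k2⟩ := hs.supp K hK
      refine mul_le_mul_of_nonneg_left ?_ (hs.nonneg K)
      have h3 := hBET K.card κ a k1 ha0 ha1
      have h4 : (K.card : ℝ) * a ≤ δ := by
        have h5 : (K.card : ℝ) ≤ m := by exact_mod_cast k2
        calc (K.card : ℝ) * a ≤ m * a := mul_le_mul_of_nonneg_right h5 ha0.le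
          _ = δ := by
            rw [ha]
            field_simp
      linarith
  have h3 : ∑ K, μ K * ((harmonic (min κ K.card) : ℝ) - δ) ≤ q * Real.log (m / δ) :=
    (Finset.sum_le_sum fun K _ => h2 K).trans h1
  have h4 : ∑ K, μ K * ((harmonic (min κ K.card) : ℝ) - δ) = ∑ K, μ K * (harmonic (min κ K.card) : ℝ) - δ := by
    simp only [mul_sub]
    rw [Finset.sum_sub_distrib, ← Finset.sum_mul, hs.sum, one_mul]
  -- `T = univ`
  have h5 := hv Finset.univ
  have h6 : (1 - ∑ K with Hit κ Finset.univ K, μ K) * (harmonic κ : ℝ) ≤ ∑ K, μ K * (harmonic (min κ K.card) : ℝ) := by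
    have e4 : 1 - ∑ K with Hit κ Finset.univ K, μ K = ∑ K with ¬ Hit κ Finset.univ K, μ K := by
      have := Finset.sum_filter_add_sum_filter_not (Finset.univ : Finset (Finset (Fin R))) (fun K => Hit κ Finset.univ K) μ
      rw [hs.sum] at this
      linarith
    rw [e4, Finset.sum_mul]
    calc ∑ K with ¬ Hit κ Finset.univ K, μ K * (harmonic κ : ℝ)
        = ∑ K with ¬ Hit κ Finset.univ K, μ K * (harmonic (min κ K.card) : ℝ) := by
          refine Finset.sum_congr rfl fun K hK => ?_
          by_cases hK0 : μ K = 0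
          · rw [hK0, zero_mul, zero_mul]
          · obtain ⟨k1, -⟩ := hs.supp K hK0
            have hK' : ¬ Hit κ Finset.univ K := (Finset.mem_filter.1 hK).2
            have hlt : κ ≤ K.card := by
              by_contra hc
              exact hK' ⟨by rw [Finset.univ_inter]; exact k1, by rw [Finset.univ_inter]; omega⟩
            rw [min_eq_left hlt]
      _ ≤ ∑ K, μ K * (harmonic (min κ K.card) : ℝ) := by
          apply Finset.sum_le_sum_of_subset_of_nonneg (Finset.filter_subset _ _)
          intro K _ _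
          exact mul_nonneg (hs.nonneg K) (hH0 _)
  have h7 : (1 - q) * (harmonic κ : ℝ) ≤ (1 - ∑ K with Hit κ Finset.univ K, μ K) * (harmonic κ : ℝ) :=
    mul_le_mul_of_nonneg_right (by linarith) (hH0 κ)
  rw [h4] at h3
  nlinarith

end Pool.Agent.ISO
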